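import Mathlib

/-!
# Vertex-centroid moves

A move replaces a vertex by a point of the line through it and the vertex centroid.  The moves of
two vertices `i`, `j` generate transvections: `v i` can be moved by any real multiple of
`v j - m`, `m` the mean of the vertices other than `v i`, with everything else unchanged.
-/

set_option autoImplicit false
set_option linter.unusedSectionVars false

namespace Pool.Agent.U96.VC

open Finset

variable {n : ℕ} [NeZero n]

/-- the vertex centroid. -/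
noncomputable def cen (v : ZMod n → ℂ) : ℂ := (∑ i, v i) / (n : ℂ)

/-- one move. -/
def Move (v w : ZMod n → ℂ) : Prop :=
  ∃ i : ZMod n, v i ≠ cen v ∧ ∃ t : ℝ, w = Function.update v i (v i + (t : ℂ) * (v i - cen v))

/-- finitely many moves. -/
def Reach (v w : ZMod n → ℂ) : Prop := Relation.ReflTransGen Move v w

theorem Reach.refl (v : ZMod n → ℂ) : Reach v v := Relation.ReflTransGen.refl

theorem Reach.trans {u v w : ZMod n → ℂ} (h : Reach u v) (h' : Reach v w) : Reach u w :=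
  Relation.ReflTransGen.trans h h'

theorem reach_move (v : ZMod n → ℂ) (i : ZMod n) (t : ℝ) :
    Reach v (Function.update v i (v i + (t : ℂ) * (v i - cen v))) := by
  by_cases h : v i = cen v
  · have : Function.update v i (v i + (t : ℂ) * (v i - cen v)) = v := by
      rw [h, sub_self, mul_zero, add_zero, ← h, Function.update_eq_self]
    rw [this]; exact Reach.refl v
  · exact Relation.ReflTransGen.single ⟨i, h, t, rfl⟩

/-- the mean of the vertices other than `v i`. -/
noncomputable def mo (v : ZMod n → ℂ) (i : ZMod n) : ℂ := (∑ k ∈ univ.erase i, v k) / ((n : ℂ) - 1)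

theorem mo_update (v : ZMod n → ℂ) (i : ZMod n) (p : ℂ) :
    mo (Function.update v i p) i = mo v i := by
  unfold mo
  congr 1
  refine Finset.sum_congr rfl fun k hk => ?_
  rw [Function.update_of_ne (Finset.ne_of_mem_erase hk)]

theorem sum_eq (v : ZMod n → ℂ) (i : ZMod n) :
    ∑ k, v k = v i + ∑ k ∈ univ.erase i, v k := (Finset.add_sum_erase univ v (mem_univ i)).symm

theorem cen_eq (hn : 3 ≤ n) (v : ZMod n → ℂ) (i : ZMod n) :
    v i - cen v = (((n : ℂ) - 1) / n) * (v i - mo v i) := by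
  have h0 : (n : ℂ) ≠ 0 := by exact_mod_cast (by omega : n ≠ 0)
  have h1 : (n : ℂ) - 1 ≠ 0 := by
    rw [sub_ne_zero]; exact_mod_cast (by omega : n ≠ 1)
  unfold cen mo
  rw [sum_eq v i]
  field_simp
  ring

/-- dilation of the vertex `v i` about the mean of the other vertices, by any real factor. -/
theorem reach_dil (hn : 3 ≤ n) (v : ZMod n → ℂ) (i : ZMod n) (l : ℝ) :
    Reach v (Function.update v i (mo v i + (l : ℂ) * (v i - mo v i))) := by
  have h0 : (n : ℂ) ≠ 0 := by exact_mod_cast (by omega : n ≠ 0)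
  have h1 : (n : ℂ) - 1 ≠ 0 := by
    rw [sub_ne_zero]; exact_mod_cast (by omega : n ≠ 1)
  have key := reach_move v i ((l - 1) * ((n : ℝ) / ((n : ℝ) - 1)))
  have e : v i + (((l - 1) * ((n : ℝ) / ((n : ℝ) - 1)) : ℝ) : ℂ) * (v i - cen v) =
      mo v i + (l : ℂ) * (v i - mo v i) := by
    rw [cen_eq hn v i]
    push_cast
    field_simp
    ring
  rw [e] at key
  exact key

section pair

/-- the polygon `v` with `v i`, `v j` replaced by `o + x`, `o + y`. -/
noncomputable def pr (v : ZMod n → ℂ) (i j : ZMod n) (o x y : ℂ) : ZMod n → ℂ :=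
  Function.update (Function.update v i (o + x)) j (o + y)

/-- the mean of the vertices other than `v i`, `v j`. -/
noncomputable def mp (v : ZMod n → ℂ) (i j : ZMod n) : ℂ :=
  (∑ k ∈ (univ.erase i).erase j, v k) / ((n : ℂ) - 2)

theorem pr_apply_i (v : ZMod n → ℂ) {i j : ZMod n} (hij : i ≠ j) (o x y : ℂ) :
    pr v i j o x y i = o + x := by
  unfold pr
  rw [Function.update_of_ne hij, Function.update_self]

theorem pr_apply_j (v : ZMod n → ℂ) (i j : ZMod n) (o x y : ℂ) :
    pr v i j o x y j = o + y := by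
  unfold pr
  rw [Function.update_self]

theorem pr_update_i (v : ZMod n → ℂ) {i j : ZMod n} (hij : i ≠ j) (o x y x' : ℂ) :
    Function.update (pr v i j o x y) i (o + x') = pr v i j o x' y := by
  unfold pr
  rw [Function.update_comm hij.symm, Function.update_idem]

theorem pr_update_j (v : ZMod n → ℂ) (i j : ZMod n) (o x y y' : ℂ) :
    Function.update (pr v i j o x y) j (o + y') = pr v i j o x y' := by
  unfold pr
  rw [Function.update_idem]

theorem pr_mo_i (hn : 3 ≤ n) (v : ZMod n → ℂ) {i j : ZMod n} (hij : i ≠ j) (x y : ℂ) :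
    mo (pr v i j (mp v i j) x y) i = mp v i j + y / ((n : ℂ) - 1) := by
  have h1 : (n : ℂ) - 1 ≠ 0 := by
    rw [sub_ne_zero]; exact_mod_cast (by omega : n ≠ 1)
  have h2 : (n : ℂ) - 2 ≠ 0 := by
    rw [sub_ne_zero]; exact_mod_cast (by omega : n ≠ 2)
  have hj : j ∈ (univ : Finset (ZMod n)).erase i := mem_erase.2 ⟨hij.symm, mem_univ j⟩
  have e : ∑ k ∈ univ.erase i, pr v i j (mp v i j) x y k =
      (mp v i j + y) + ∑ k ∈ (univ.erase i).erase j, v k := by
    rw [← Finset.add_sum_erase _ _ hj, pr_apply_j]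
    congr 1
    refine Finset.sum_congr rfl fun k hk => ?_
    have hk1 : k ≠ j := Finset.ne_of_mem_erase hk
    have hk2 : k ≠ i := Finset.ne_of_mem_erase (Finset.mem_of_mem_erase hk)
    unfold pr
    rw [Function.update_of_ne hk1, Function.update_of_ne hk2]
  have e2 : ∑ k ∈ (univ.erase i).erase j, v k = ((n : ℂ) - 2) * mp v i j := by
    unfold mp; field_simp
  unfold mo
  rw [e, e2]
  field_simp
  ring

theorem pr_mo_j (hn : 3 ≤ n) (v : ZMod n → ℂ) {i j : ZMod n} (hij : i ≠ j) (x y : ℂ) :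
    mo (pr v i j (mp v i j) x y) j = mp v i j + x / ((n : ℂ) - 1) := by
  have h1 : (n : ℂ) - 1 ≠ 0 := by
    rw [sub_ne_zero]; exact_mod_cast (by omega : n ≠ 1)
  have h2 : (n : ℂ) - 2 ≠ 0 := by
    rw [sub_ne_zero]; exact_mod_cast (by omega : n ≠ 2)
  have hi : i ∈ (univ : Finset (ZMod n)).erase j := mem_erase.2 ⟨hij, mem_univ i⟩
  have e : ∑ k ∈ univ.erase j, pr v i j (mp v i j) x y k =
      (mp v i j + x) + ∑ k ∈ (univ.erase i).erase j, v k := by
    rw [← Finset.add_sum_erase _ _ hi, pr_apply_i v hij, Finset.erase_right_comm]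
    congr 1
    refine Finset.sum_congr rfl fun k hk => ?_
    have hk1 : k ≠ j := Finset.ne_of_mem_erase hk
    have hk2 : k ≠ i := Finset.ne_of_mem_erase (Finset.mem_of_mem_erase hk)
    unfold pr
    rw [Function.update_of_ne hk1, Function.update_of_ne hk2]
  have e2 : ∑ k ∈ (univ.erase i).erase j, v k = ((n : ℂ) - 2) * mp v i j := by
    unfold mp; field_simp
  unfold mo
  rw [e, e2]
  field_simp
  ring

/-- the move of the first vertex, in coordinates. -/
theorem step_i (hn : 3 ≤ n) (v : ZMod n → ℂ) {i j : ZMod n} (hij : i ≠ j) (l : ℝ) (x y : ℂ) :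
    Reach (pr v i j (mp v i j) x y)
      (pr v i j (mp v i j) ((l : ℂ) * x + (1 - (l : ℂ)) * (1 / ((n : ℂ) - 1)) * y) y) := by
  have key := reach_dil hn (pr v i j (mp v i j) x y) i l
  rw [pr_mo_i hn v hij, pr_apply_i v hij] at key
  have e : mp v i j + y / ((n : ℂ) - 1) + (l : ℂ) * (mp v i j + x - (mp v i j + y / ((n : ℂ) - 1))) =
      mp v i j + ((l : ℂ) * x + (1 - (l : ℂ)) * (1 / ((n : ℂ) - 1)) * y) := by ring
  rw [e, pr_update_i v hij] at key
  exact key

/-- the move of the second vertex, in coordinates. -/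
theorem step_j (hn : 3 ≤ n) (v : ZMod n → ℂ) {i j : ZMod n} (hij : i ≠ j) (l : ℝ) (x y : ℂ) :
    Reach (pr v i j (mp v i j) x y)
      (pr v i j (mp v i j) x ((l : ℂ) * y + (1 - (l : ℂ)) * (1 / ((n : ℂ) - 1)) * x)) := by
  have key := reach_dil hn (pr v i j (mp v i j) x y) j l
  rw [pr_mo_j hn v hij, pr_apply_j] at key
  have e : mp v i j + x / ((n : ℂ) - 1) + (l : ℂ) * (mp v i j + y - (mp v i j + x / ((n : ℂ) - 1))) =
      mp v i j + ((l : ℂ) * y + (1 - (l : ℂ)) * (1 / ((n : ℂ) - 1)) * x) := by ring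
  rw [e, pr_update_j] at key
  exact key

/-- the transvection with a generic parameter, by eight moves. -/
theorem transv_aux (hn : 3 ≤ n) (v : ZMod n → ℂ) {i j : ZMod n} (hij : i ≠ j) (nu : ℝ)
    (hnu : nu ≠ 0) (x y : ℂ) :
    Reach (pr v i j (mp v i j) x y)
      (pr v i j (mp v i j) (x + (((1 - nu) * (-9 * (1 / ((n : ℝ) - 1)) * (1 - (1 / ((n : ℝ) - 1)) ^ 2) /
        (2 - (1 / ((n : ℝ) - 1)) ^ 2)) : ℝ) : ℂ) * y) y) := by
  obtain ⟨e, he⟩ : ∃ e : ℝ, e = 1 / ((n : ℝ) - 1) := ⟨_, rfl⟩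
  have hn3 : (3 : ℝ) ≤ n := by exact_mod_cast hn
  have he0 : 0 < e := by rw [he]; apply one_div_pos.2; linarith
  have he1 : e ≤ 1 / 2 := by
    rw [he, div_le_div_iff₀ (by linarith) (by norm_num)]; linarith
  have hec : (1 / ((n : ℂ) - 1)) = (e : ℂ) := by rw [he]; push_cast; rfl
  have hq : (1 - 2 * e ^ 2) ≠ 0 := by nlinarith
  have hr : (2 - e ^ 2) ≠ 0 := by nlinarith
  have hqc : (1 - 2 * (e : ℂ) ^ 2) ≠ 0 := by exact_mod_cast hq
  have hrc : (2 - (e : ℂ) ^ 2) ≠ 0 := by exact_mod_cast hr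
  have hnuc : (nu : ℂ) ≠ 0 := by exact_mod_cast hnu
  obtain ⟨la, hla⟩ : ∃ la : ℝ, la = (4 - 2 * e ^ 2) / (1 - 2 * e ^ 2) := ⟨_, rfl⟩
  have hlac : (la : ℂ) = (4 - 2 * (e : ℂ) ^ 2) / (1 - 2 * (e : ℂ) ^ 2) := by
    rw [hla]; push_cast; rfl
  have hla0 : (4 - 2 * (e : ℂ) ^ 2) ≠ 0 := by
    have : (4 - 2 * (e : ℂ) ^ 2) = 2 * (2 - (e : ℂ) ^ 2) := by ring
    rw [this]; exact mul_ne_zero two_ne_zero hrc
  rw [← he]
  have s1 := step_i hn v hij (1 / nu) x y
  rw [hec] at s1
  have s2 := fun a b => step_j hn v hij (1 / 2) a b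
  have s3 := fun a b => step_i hn v hij (1 / la) a b
  have s4 := fun a b => step_j hn v hij (-1) a b
  have s5 := fun a b => step_i hn v hij nu a b
  have s7 := fun a b => step_i hn v hij la a b
  have s8 := fun a b => step_j hn v hij 2 a b
  rw [hec] at s2 s3 s4 s5 s7 s8
  refine s1.trans (Reach.trans (s2 _ _) (Reach.trans (s3 _ _) (Reach.trans (s4 _ _)
    (Reach.trans (s5 _ _) (Reach.trans (s4 _ _) (Reach.trans (s7 _ _) ?_))))))
  obtain ⟨q, hqd⟩ : ∃ q : ℂ, q = 1 - 2 * (e : ℂ) ^ 2 := ⟨_, rfl⟩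
  obtain ⟨r, hrd⟩ : ∃ r : ℂ, r = 2 - (e : ℂ) ^ 2 := ⟨_, rfl⟩
  rw [← hqd] at hqc
  rw [← hrd] at hrc
  have hL : (la : ℂ) = 2 * r / q := by
    rw [hlac, hqd, hrd]
    congr 1
    ring
  have hLi : (la : ℂ)⁻¹ = q / (2 * r) := by
    rw [hL, inv_div]
  convert s8 _ _ using 2
  · push_cast
    rw [one_div (la : ℂ), hLi, hL, ← hrd]
    field_simp
    rw [hqd, hrd]
    ring
  · push_cast
    rw [one_div (la : ℂ), hLi, hL]
    field_simp
    rw [hqd, hrd]
    ring

end pair

end Pool.Agent.U96.VC
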