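import Mathlib
import Pool.Agent.U96.VC.Core

/-!
# Every noncollinear polygon can be carried to a regular polygon by vertex-centroid moves
-/

set_option autoImplicit false
set_option linter.unusedSectionVars false

namespace Pool.Agent.U96.VC

open Finset

variable {n : ℕ} [NeZero n]

/-- the transvection with any real parameter. -/
theorem transv (hn : 3 ≤ n) (v : ZMod n → ℂ) {i j : ZMod n} (hij : i ≠ j) (z : ℝ) (x y : ℂ) :
    Reach (pr v i j (mp v i j) x y) (pr v i j (mp v i j) (x + (z : ℂ) * y) y) := by
  obtain ⟨k, hk⟩ : ∃ k : ℝ, k = (-9 * (1 / ((n : ℝ) - 1)) * (1 - (1 / ((n : ℝ) - 1)) ^ 2) /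
        (2 - (1 / ((n : ℝ) - 1)) ^ 2)) := ⟨_, rfl⟩
  obtain ⟨e, he⟩ : ∃ e : ℝ, e = 1 / ((n : ℝ) - 1) := ⟨_, rfl⟩
  have hn3 : (3 : ℝ) ≤ n := by exact_mod_cast hn
  have he0 : 0 < e := by rw [he]; apply one_div_pos.2; linarith
  have he1 : e ≤ 1 / 2 := by
    rw [he, div_le_div_iff₀ (by linarith) (by norm_num)]; linarith
  have hr : (2 - e ^ 2) ≠ 0 := by nlinarith
  have hk0 : k ≠ 0 := by
    rw [hk, ← he]
    apply div_ne_zero _ hr
    apply mul_ne_zero (mul_ne_zero (by norm_num) he0.ne')
    nlinarith
  have gen : ∀ (z : ℝ) (x y : ℂ), z ≠ k →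
      Reach (pr v i j (mp v i j) x y) (pr v i j (mp v i j) (x + (z : ℂ) * y) y) := by
    intro z x y hz
    have h1 : 1 - z / k ≠ 0 := by
      intro h
      apply hz
      have : z / k = 1 := by linarith
      rwa [div_eq_one_iff_eq hk0] at this
    have key := transv_aux hn v hij (1 - z / k) h1 x y
    rw [← hk] at key
    have e1 : (1 - (1 - z / k)) * k = z := by
      field_simp
      ring
    rw [e1] at key
    exact key
  by_cases hz : z = k
  · have h2 : z / 2 ≠ k := by
      rw [hz]; intro h; apply hk0; linarith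
    have s1 := gen (z / 2) x y h2
    have s2 := gen (z / 2) (x + ((z / 2 : ℝ) : ℂ) * y) y h2
    refine s1.trans ?_
    have e1 : x + ((z / 2 : ℝ) : ℂ) * y + ((z / 2 : ℝ) : ℂ) * y = x + (z : ℂ) * y := by
      push_cast; ring
    rw [e1] at s2
    exact s2
  · exact gen z x y hz

theorem pr_self (v : ZMod n → ℂ) {i j : ZMod n} (hij : i ≠ j) (o x : ℂ) :
    pr v i j o x (v j - o) = Function.update v i (o + x) := by
  unfold pr
  rw [add_sub_cancel]
  conv_lhs => rw [← Function.update_of_ne hij.symm (o + x) v]
  rw [Function.update_eq_self]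

/-- `v i` can be moved by any real multiple of `v j - m`, `m` the mean of the other vertices. -/
theorem reach_add (hn : 3 ≤ n) (v : ZMod n → ℂ) {i j : ZMod n} (hij : i ≠ j) (z : ℝ) :
    Reach v (Function.update v i (v i + (z : ℂ) * (v j - mo v i))) := by
  have h1 : (n : ℂ) - 1 ≠ 0 := by
    rw [sub_ne_zero]; exact_mod_cast (by omega : n ≠ 1)
  have h2 : (n : ℂ) - 2 ≠ 0 := by
    rw [sub_ne_zero]; exact_mod_cast (by omega : n ≠ 2)
  have key := transv hn v hij (z * (((n : ℝ) - 2) / ((n : ℝ) - 1))) (v i - mp v i j) (v j - mp v i j)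
  rw [pr_self v hij, pr_self v hij, add_sub_cancel, Function.update_eq_self] at key
  have e : mp v i j + (v i - mp v i j +
      ((z * (((n : ℝ) - 2) / ((n : ℝ) - 1)) : ℝ) : ℂ) * (v j - mp v i j)) =
      v i + (z : ℂ) * (v j - mo v i) := by
    have hj : j ∈ (univ : Finset (ZMod n)).erase i := mem_erase.2 ⟨hij.symm, mem_univ j⟩
    have e2 : ∑ k ∈ (univ.erase i).erase j, v k = ((n : ℂ) - 2) * mp v i j := by
      unfold mp; field_simp
    have e3 : mo v i = (v j + ((n : ℂ) - 2) * mp v i j) / ((n : ℂ) - 1) := by
      unfold mo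
      rw [← Finset.add_sum_erase _ _ hj, e2]
    rw [e3]
    push_cast
    field_simp
    ring
  rw [e] at key
  exact key

/-- twice the signed area. -/
def cr (a b : ℂ) : ℝ := a.re * b.im - a.im * b.re

theorem span2 {a b : ℂ} (h : cr a b ≠ 0) (d : ℂ) : ∃ s t : ℝ, d = (s : ℂ) * a + (t : ℂ) * b := by
  obtain ⟨D, hD⟩ : ∃ D, D = cr a b := ⟨_, rfl⟩
  rw [← hD] at h
  refine ⟨(d.re * b.im - d.im * b.re) / D, (a.re * d.im - a.im * d.re) / D, ?_⟩
  unfold cr at hD
  apply Complex.ext
  · simp only [Complex.add_re, Complex.mul_re, Complex.ofReal_re, Complex.ofReal_im, zero_mul,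
      sub_zero]
    field_simp
    rw [hD]
    ring
  · simp only [Complex.add_im, Complex.mul_im, Complex.ofReal_re, Complex.ofReal_im, zero_mul,
      add_zero]
    field_simp
    rw [hD]
    ring

/-- the first part of `reach_add` twice. -/
theorem reach_add2 (hn : 3 ≤ n) (v : ZMod n → ℂ) {i a b : ZMod n} (ha : i ≠ a) (hb : i ≠ b)
    (s t : ℝ) :
    Reach v (Function.update v i (v i + (s : ℂ) * (v a - mo v i) + (t : ℂ) * (v b - mo v i))) := by
  have s1 := reach_add hn v ha s
  have s2 := reach_add hn (Function.update v i (v i + (s : ℂ) * (v a - mo v i))) hb t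
  rw [mo_update, Function.update_self, Function.update_of_ne hb.symm, Function.update_idem] at s2
  exact s1.trans s2

/-- a vertex can be moved anywhere if three other vertices are not collinear. -/
theorem reach_any (hn : 3 ≤ n) (v : ZMod n → ℂ) {i a b c : ZMod n} (ha : i ≠ a) (hb : i ≠ b)
    (hc : i ≠ c) (h : cr (v b - v a) (v c - v a) ≠ 0) (p : ℂ) :
    Reach v (Function.update v i p) := by
  obtain ⟨s, t, hst⟩ := span2 h (p - v i)
  have s1 := reach_add2 hn v hb hc s t
  have s2 := reach_add hn (Function.update v i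
    (v i + (s : ℂ) * (v b - mo v i) + (t : ℂ) * (v c - mo v i))) ha (-(s + t))
  rw [mo_update, Function.update_self, Function.update_of_ne ha.symm, Function.update_idem] at s2
  have e : v i + (s : ℂ) * (v b - mo v i) + (t : ℂ) * (v c - mo v i) +
      ((-(s + t) : ℝ) : ℂ) * (v a - mo v i) = p := by
    have : p = v i + (p - v i) := by ring
    rw [this, hst]
    push_cast
    ring
  rw [e] at s2
  exact s1.trans s2

/-- a vertex of a noncollinear triple can be moved anywhere. -/
theorem reach_any' (hn : 3 ≤ n) (v : ZMod n → ℂ) {a b c : ZMod n} (ha : c ≠ a) (hb : c ≠ b)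
    (h : cr (v b - v a) (v c - v a) ≠ 0) (p : ℂ) :
    Reach v (Function.update v c p) := by
  by_cases h0 : cr (v b - v a) (v c - mo v c) = 0
  · -- `v a - m` and `v b - v a` span
    have h1 : cr (v b - v a) (v a - mo v c) ≠ 0 := by
      intro h2
      apply h
      unfold cr at *
      simp only [Complex.sub_re, Complex.sub_im] at *
      linarith
    obtain ⟨s, t, hst⟩ := span2 h1 (p - v c)
    have s1 := reach_add2 hn v ha hb (t - s) s
    have e : v c + ((t - s : ℝ) : ℂ) * (v a - mo v c) + (s : ℂ) * (v b - mo v c) = p := by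
      have : p = v c + (p - v c) := by ring
      rw [this, hst]
      push_cast
      ring
    rw [e] at s1
    exact s1
  · obtain ⟨s, t, hst⟩ := span2 h0 (p - mo v c)
    have s0 := reach_dil hn v c t
    have s1 := reach_add2 hn (Function.update v c (mo v c + (t : ℂ) * (v c - mo v c))) ha hb (-s) s
    rw [mo_update, Function.update_self, Function.update_of_ne ha.symm,
      Function.update_of_ne hb.symm, Function.update_idem] at s1
    have e : mo v c + (t : ℂ) * (v c - mo v c) + ((-s : ℝ) : ℂ) * (v a - mo v c) +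
        (s : ℂ) * (v b - mo v c) = p := by
      have : p = mo v c + (p - mo v c) := by ring
      rw [this, hst]
      push_cast
      ring
    rw [e] at s1
    exact s0.trans s1

/-- a polygon whose vertices are not all on one line. -/
def NotCollinear (v : ZMod n → ℂ) : Prop := ∃ a b c : ZMod n, cr (v b - v a) (v c - v a) ≠ 0

/-- regular polygon, the vertices in cyclic order. -/
def RegularPolygon (v : ZMod n → ℂ) : Prop :=
  ∃ c r : ℂ, r ≠ 0 ∧ ∀ k : ZMod n, v k = c + r * Complex.exp (2 * Real.pi * Complex.I * (k.val / n))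

theorem exp_val (k : ZMod n) : Complex.exp (2 * Real.pi * Complex.I * (k.val / n)) =
    Complex.exp (2 * Real.pi * Complex.I / n) ^ k.val := by
  rw [← Complex.exp_nat_mul]
  congr 1
  ring

theorem main (hn : 3 ≤ n) (v : ZMod n → ℂ) (hv : NotCollinear v) :
    ∃ w, RegularPolygon w ∧ Reach v w := by
  obtain ⟨a, b, c, h⟩ := hv
  have hab : a ≠ b := by
    rintro rfl; apply h; simp [cr]
  have hac : c ≠ a := by
    rintro rfl; apply h; simp [cr]
  have hbc : c ≠ b := by
    rintro rfl; apply h; unfold cr; ring
  have hva : v b - v a ≠ 0 := by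
    intro h0; apply h; rw [h0]; simp [cr]
  obtain ⟨ze, hze⟩ : ∃ ze : ℂ, ze = Complex.exp (2 * Real.pi * Complex.I / n) := ⟨_, rfl⟩
  have hprim : IsPrimitiveRoot ze n := by
    rw [hze]; exact Complex.isPrimitiveRoot_exp n (NeZero.ne n)
  have hne : ze ^ b.val - ze ^ a.val ≠ 0 := by
    rw [sub_ne_zero]
    intro h0
    apply hab
    exact (ZMod.val_injective n (hprim.pow_inj (ZMod.val_lt b) (ZMod.val_lt a) h0)).symm
  obtain ⟨r, hr⟩ : ∃ r : ℂ, r = (v b - v a) / (ze ^ b.val - ze ^ a.val) := ⟨_, rfl⟩
  obtain ⟨w, hw⟩ : ∃ w : ZMod n → ℂ, w = fun k => (v a - r * ze ^ a.val) + r * ze ^ k.val := ⟨_, rfl⟩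
  have hwa : w a = v a := by rw [hw]; ring
  have hwb : w b = v b := by
    rw [hw]
    have : r * (ze ^ b.val - ze ^ a.val) = v b - v a := by rw [hr]; field_simp
    linear_combination this
  have hreg : RegularPolygon w := by
    refine ⟨v a - r * ze ^ a.val, r, ?_, ?_⟩
    · rw [hr]; exact div_ne_zero hva hne
    · intro k; rw [exp_val, hw, ← hze]
  refine ⟨w, hreg, ?_⟩
  -- move the other vertices one by one
  have step : ∀ s : Finset (ZMod n), a ∉ s → b ∉ s → c ∉ s →
      Reach v (fun k => if k ∈ s then w k else v k) := by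
    intro s
    induction s using Finset.induction_on with
    | empty =>
      intro _ _ _
      simp only [Finset.notMem_empty, if_false]
      exact Reach.refl v
    | insert i s his ih =>
      intro h1 h2 h3
      rw [Finset.mem_insert, not_or] at h1 h2 h3
      have h4 := ih h1.2 h2.2 h3.2
      have h5 := reach_any hn (fun k => if k ∈ s then w k else v k) (i := i) (a := a) (b := b)
        (c := c) (Ne.symm h1.1) (Ne.symm h2.1) (Ne.symm h3.1)
        (by simp only [if_neg h1.2, if_neg h2.2, if_neg h3.2]; exact h) (w i)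
      have e : Function.update (fun k => if k ∈ s then w k else v k) i (w i) =
          (fun k => if k ∈ insert i s then w k else v k) := by
        funext k
        by_cases hk : k = i
        · subst hk; simp
        · rw [Function.update_of_ne hk]; simp [Finset.mem_insert, hk]
      rw [e] at h5
      exact h4.trans h5
  obtain ⟨s, hs⟩ : ∃ s : Finset (ZMod n), s = ((univ.erase a).erase b).erase c := ⟨_, rfl⟩
  have h6 := step s (by simp [hs]) (by simp [hs]) (by simp [hs])
  have h7 := reach_any' hn (fun k => if k ∈ s then w k else v k) hac hbc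
    (by
      have e1 : a ∉ s := by simp [hs]
      have e2 : b ∉ s := by simp [hs]
      have e3 : c ∉ s := by simp [hs]
      simp only [if_neg e1, if_neg e2, if_neg e3]; exact h) (w c)
  have e : Function.update (fun k => if k ∈ s then w k else v k) c (w c) = w := by
    funext k
    by_cases hk : k = c
    · subst hk; simp
    · rw [Function.update_of_ne hk]
      by_cases hk2 : k ∈ s
      · simp [hk2]
      · simp only [if_neg hk2]
        have : k = a ∨ k = b := by
          by_contra hcon
          push Not at hcon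
          apply hk2
          simp [hs, hk, hcon.1, hcon.2]
        rcases this with rfl | rfl
        · exact hwa.symm
        · exact hwb.symm
  rw [e] at h7
  exact h6.trans h7

/-- simple polygon: distinct vertices, and two different edges meet at most in a common vertex of
neighbouring edges. -/
def SimplePolygon (v : ZMod n → ℂ) : Prop :=
  Function.Injective v ∧ ∀ i j : ZMod n, i ≠ j →
    ∀ p ∈ segment ℝ (v i) (v (i + 1)), p ∈ segment ℝ (v j) (v (j + 1)) →
      (j = i + 1 ∧ p = v j) ∨ (i = j + 1 ∧ p = v i)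

theorem simple_notCollinear (hn : 3 ≤ n) (v : ZMod n → ℂ) (hv : SimplePolygon v) : NotCollinear v := by
  by_contra hcon
  unfold NotCollinear at hcon
  push Not at hcon
  have hone : (1 : ZMod n) ≠ 0 := by
    intro h
    have : ((1 : ℕ) : ZMod n) = 0 := by simpa using h
    rw [ZMod.natCast_eq_zero_iff] at this
    have := Nat.le_of_dvd one_pos this
    omega
  have htwo : (2 : ZMod n) ≠ 0 := by
    intro h
    have : ((2 : ℕ) : ZMod n) = 0 := by simpa using h
    rw [ZMod.natCast_eq_zero_iff] at this
    have := Nat.le_of_dvd two_pos this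
    omega
  have hd : v 1 - v 0 ≠ 0 := by
    rw [sub_ne_zero]
    intro h
    exact hone (hv.1 h)
  have hline : ∀ k, ∃ t : ℝ, v k = v 0 + (t : ℂ) * (v 1 - v 0) := by
    intro k
    have h1 := hcon 0 1 k
    have h2 : 0 < (v 1 - v 0).re ^ 2 + (v 1 - v 0).im ^ 2 := by
      rcases lt_or_eq_of_le (add_nonneg (sq_nonneg (v 1 - v 0).re) (sq_nonneg (v 1 - v 0).im)) with
        h | h
      · exact h
      · exfalso
        apply hd
        apply Complex.ext
        · simp only [Complex.zero_re]
          nlinarith [sq_nonneg (v 1 - v 0).re, sq_nonneg (v 1 - v 0).im]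
        · simp only [Complex.zero_im]
          nlinarith [sq_nonneg (v 1 - v 0).re, sq_nonneg (v 1 - v 0).im]
    unfold cr at h1
    obtain ⟨d, hdd⟩ : ∃ d, d = v 1 - v 0 := ⟨_, rfl⟩
    obtain ⟨f, hff⟩ : ∃ f, f = v k - v 0 := ⟨_, rfl⟩
    rw [← hdd, ← hff] at h1
    rw [← hdd] at h2 ⊢
    refine ⟨(d.re * f.re + d.im * f.im) / (d.re ^ 2 + d.im ^ 2), ?_⟩
    have e : v k = v 0 + f := by rw [hff]; ring
    rw [e]
    congr 1
    apply Complex.ext
    · simp only [Complex.mul_re, Complex.ofReal_re, Complex.ofReal_im, zero_mul, sub_zero]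
      field_simp
      linear_combination (-d.im) * h1
    · simp only [Complex.mul_im, Complex.ofReal_re, Complex.ofReal_im, zero_mul, add_zero]
      field_simp
      linear_combination (d.re) * h1
  choose t ht using hline
  have htinj : ∀ i j, t i = t j → i = j := by
    intro i j hij
    apply hv.1
    rw [ht i, ht j, hij]
  obtain ⟨k, hk⟩ := Finite.exists_max t
  have hk1 : t (k - 1) < t k := lt_of_le_of_ne (hk _) (fun h => hone (by
    have := htinj _ _ h
    have h2 : (k - 1) - k = 0 := by rw [this]; ring
    linear_combination -h2))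
  have hk2 : t (k + 1) < t k := lt_of_le_of_ne (hk _) (fun h => hone (by
    have := htinj _ _ h
    linear_combination this))
  have hseg : ∀ i j l, t i ≤ t j → t j ≤ t l → v j ∈ segment ℝ (v i) (v l) := by
    intro i j l h1 h2
    rcases eq_or_lt_of_le (h1.trans h2) with h3 | h3
    · have : t j = t i := le_antisymm (h2.trans h3.ge) h1
      rw [htinj _ _ this]
      exact left_mem_segment ℝ _ _
    · refine ⟨(t l - t j) / (t l - t i), (t j - t i) / (t l - t i), ?_, ?_, ?_, ?_⟩
      · exact div_nonneg (by linarith) (by linarith)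
      · exact div_nonneg (by linarith) (by linarith)
      · have : t l - t i ≠ 0 := by linarith
        field_simp
        ring
      · have h4 : t l - t i ≠ 0 := by linarith
        have h4c : ((t l : ℂ) - (t i : ℂ)) ≠ 0 := by exact_mod_cast h4
        rw [ht i, ht j, ht l]
        simp only [Complex.real_smul]
        push_cast
        field_simp
        ring
  have hne : k - 1 ≠ k := by
    intro h
    exact hone (by linear_combination (-1 : ZMod n) * h)
  have e1 : k - 1 + 1 = k := by ring
  rcases le_total (t (k - 1)) (t (k + 1)) with h | h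
  · -- `v (k + 1)` lies on the edge from `v (k - 1)` to `v k`
    have m1 : v (k + 1) ∈ segment ℝ (v (k - 1)) (v (k - 1 + 1)) := by
      rw [e1]; exact hseg _ _ _ h hk2.le
    have m2 : v (k + 1) ∈ segment ℝ (v k) (v (k + 1)) := right_mem_segment ℝ _ _
    rcases hv.2 (k - 1) k hne _ m1 m2 with h3 | h3
    · have := hv.1 h3.2
      exact hone (by linear_combination this)
    · have h4 := h3.1
      exact htwo (by linear_combination (-1 : ZMod n) * h4)
  · have m1 : v (k - 1) ∈ segment ℝ (v (k - 1)) (v (k - 1 + 1)) := left_mem_segment ℝ _ _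
    have m2 : v (k - 1) ∈ segment ℝ (v k) (v (k + 1)) := by
      rw [segment_symm]; exact hseg _ _ _ h hk1.le
    rcases hv.2 (k - 1) k hne _ m1 m2 with h3 | h3
    · have := hv.1 h3.2
      exact hne this
    · have h4 := h3.1
      exact htwo (by linear_combination (-1 : ZMod n) * h4)

end Pool.Agent.U96.VC
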